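import Pool.Agent.W802.CG.Stms

set_option autoImplicit false

namespace W628.CG

open MeasureTheory intervalIntegral Set

/-- second derivative test -/
lemma vdc {c d κ : ℝ} (hcd : c ≤ d) (hκ : 0 < κ) (ψ φ χ : ℝ → ℝ)
    (h1 : ∀ x ∈ Icc c d, HasDerivAt ψ (φ x) x) (h2 : ∀ x ∈ Icc c d, HasDerivAt φ (χ x) x)
    (h3 : ContinuousOn χ (Icc c d)) (h4 : ∀ x ∈ Icc c d, κ ≤ χ x) :
    ‖∫ x in c..d, Complex.exp (Complex.I * (ψ x : ℂ))‖ ≤ 8 / Real.sqrt κ := by
  set μ := Real.sqrt κ with hμ
  have hμ0 : 0 < μ := Real.sqrt_pos.mpr hκ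
  have hμ2 : μ ^ 2 = κ := Real.sq_sqrt hκ.le
  have hu : uIcc c d = Icc c d := uIcc_of_le hcd
  have hD : ∀ x, 0 < φ x ^ 2 + μ ^ 2 := fun x => by positivity
  -- continuity
  have cψ : ContinuousOn ψ (Icc c d) := fun x hx => (h1 x hx).continuousAt.continuousWithinAt
  have cφ : ContinuousOn φ (Icc c d) := fun x hx => (h2 x hx).continuousAt.continuousWithinAt
  have cE : ContinuousOn (fun x => Complex.exp (Complex.I * (ψ x : ℂ))) (Icc c d) := by
    apply Complex.continuous_exp.comp_continuousOn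
    exact continuousOn_const.mul (Complex.continuous_ofReal.comp_continuousOn cψ)
  have nE : ∀ x, ‖Complex.exp (Complex.I * (ψ x : ℂ))‖ = 1 := by
    intro x
    rw [mul_comm]
    exact Complex.norm_exp_ofReal_mul_I _
  -- the function `G = φ / (φ² + μ²)`
  set G : ℝ → ℝ := fun x => φ x / (φ x ^ 2 + μ ^ 2) with hG
  set G' : ℝ → ℝ := fun x => χ x * (μ ^ 2 - φ x ^ 2) / (φ x ^ 2 + μ ^ 2) ^ 2 with hG'
  have dG : ∀ x ∈ Icc c d, HasDerivAt G (G' x) x := by
    intro x hx
    have e0 : HasDerivAt (fun x => φ x ^ 2) (2 * φ x * χ x) x := by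
      have := (h2 x hx).fun_pow 2
      simpa using this
    have e1 : HasDerivAt G ((χ x * (φ x ^ 2 + μ ^ 2) - φ x * (2 * φ x * χ x)) / (φ x ^ 2 + μ ^ 2) ^ 2) x :=
      (h2 x hx).div (e0.add_const (μ ^ 2)) (hD x).ne'
    have e2 : G' x = (χ x * (φ x ^ 2 + μ ^ 2) - φ x * (2 * φ x * χ x)) / (φ x ^ 2 + μ ^ 2) ^ 2 := by
      simp only [hG']
      congr 1
      ring
    rw [e2]
    exact e1
  have cG' : ContinuousOn G' (Icc c d) := by
    apply ContinuousOn.div
    · exact h3.mul (continuousOn_const.sub (cφ.pow 2))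
    · exact ((cφ.pow 2).add continuousOn_const).pow 2
    · intro x _
      have := hD x
      positivity
  have bG : ∀ x, |G x| ≤ 1 / (2 * μ) := by
    intro x
    simp only [hG]
    rw [abs_div, abs_of_pos (hD x), div_le_div_iff₀ (hD x) (by positivity)]
    nlinarith [sq_nonneg (|φ x| - μ), sq_abs (φ x), abs_nonneg (φ x)]
  -- `H = G e^{iψ}`
  have dH : ∀ x ∈ Icc c d, HasDerivAt (fun x => (G x : ℂ) * Complex.exp (Complex.I * (ψ x : ℂ)))
      ((G' x : ℂ) * Complex.exp (Complex.I * (ψ x : ℂ))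
        + (G x : ℂ) * (Complex.exp (Complex.I * (ψ x : ℂ)) * (Complex.I * (φ x : ℂ)))) x := by
    intro x hx
    exact ((dG x hx).ofReal_comp).mul (((h1 x hx).ofReal_comp.const_mul Complex.I).cexp)
  set w : ℝ → ℂ := fun x => (Complex.I * (G' x : ℂ) + ((μ ^ 2 / (φ x ^ 2 + μ ^ 2) : ℝ) : ℂ))
    * Complex.exp (Complex.I * (ψ x : ℂ)) with hw
  have cK : ContinuousOn (fun x => μ ^ 2 / (φ x ^ 2 + μ ^ 2)) (Icc c d) :=
    continuousOn_const.div ((cφ.pow 2).add continuousOn_const) (fun x _ => (hD x).ne')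
  have cw : ContinuousOn w (Icc c d) :=
    ((continuousOn_const.mul (Complex.continuous_ofReal.comp_continuousOn cG')).add
      (Complex.continuous_ofReal.comp_continuousOn cK)).mul cE
  have cH' : ContinuousOn (fun x => (G' x : ℂ) * Complex.exp (Complex.I * (ψ x : ℂ))
        + (G x : ℂ) * (Complex.exp (Complex.I * (ψ x : ℂ)) * (Complex.I * (φ x : ℂ)))) (Icc c d) := by
    have cG : ContinuousOn G (Icc c d) := fun x hx => (dG x hx).continuousAt.continuousWithinAt
    exact ((Complex.continuous_ofReal.comp_continuousOn cG').mul cE).add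
      ((Complex.continuous_ofReal.comp_continuousOn cG).mul
        (cE.mul (continuousOn_const.mul (Complex.continuous_ofReal.comp_continuousOn cφ))))
  have hsplit : ∀ x, Complex.exp (Complex.I * (ψ x : ℂ)) =
      -Complex.I * ((G' x : ℂ) * Complex.exp (Complex.I * (ψ x : ℂ))
        + (G x : ℂ) * (Complex.exp (Complex.I * (ψ x : ℂ)) * (Complex.I * (φ x : ℂ)))) + w x := by
    intro x
    have e1 : (G x : ℂ) * (φ x : ℂ) + ((μ ^ 2 / (φ x ^ 2 + μ ^ 2) : ℝ) : ℂ) = 1 := by
      rw [← Complex.ofReal_mul, ← Complex.ofReal_add, ← Complex.ofReal_one]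
      congr 1
      simp only [hG]
      have := hD x
      field_simp
    simp only [hw]
    linear_combination (-Complex.exp (Complex.I * (ψ x : ℂ))) * e1
      + (G x : ℂ) * Complex.exp (Complex.I * (ψ x : ℂ)) * (φ x : ℂ) * Complex.I_sq
  have hint : ∫ x in c..d, Complex.exp (Complex.I * (ψ x : ℂ)) =
      -Complex.I * ((G d : ℂ) * Complex.exp (Complex.I * (ψ d : ℂ))
        - (G c : ℂ) * Complex.exp (Complex.I * (ψ c : ℂ))) + ∫ x in c..d, w x := by
    have i1 : IntervalIntegrable (fun x => (G' x : ℂ) * Complex.exp (Complex.I * (ψ x : ℂ))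
        + (G x : ℂ) * (Complex.exp (Complex.I * (ψ x : ℂ)) * (Complex.I * (φ x : ℂ)))) volume c d :=
      ContinuousOn.intervalIntegrable (by rw [hu]; exact cH')
    have i2 : IntervalIntegrable w volume c d :=
      ContinuousOn.intervalIntegrable (by rw [hu]; exact cw)
    have e2 := integral_eq_sub_of_hasDerivAt (f := fun x => (G x : ℂ) * Complex.exp (Complex.I * (ψ x : ℂ)))
      (fun x hx => dH x (by rwa [hu] at hx)) i1
    rw [← e2, ← intervalIntegral.integral_const_mul, ← intervalIntegral.integral_add (i1.const_mul _) i2]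
    exact intervalIntegral.integral_congr (fun x _ => hsplit x)
  -- the majorant
  set Φ : ℝ → ℝ := fun x => 2 / μ * Real.arctan (φ x / μ) with hΦ
  have dΦ : ∀ x ∈ Icc c d, HasDerivAt Φ (2 * χ x / (φ x ^ 2 + μ ^ 2)) x := by
    intro x hx
    have e1 : HasDerivAt Φ (2 / μ * (1 / (1 + (φ x / μ) ^ 2) * (χ x / μ))) x :=
      (((h2 x hx).div_const μ).arctan).const_mul (2 / μ)
    have e2 : 2 * χ x / (φ x ^ 2 + μ ^ 2) = 2 / μ * (1 / (1 + (φ x / μ) ^ 2) * (χ x / μ)) := by
      have h3 := hD x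
      have h4 : 0 < 1 + (φ x / μ) ^ 2 := by positivity
      have h5 : 1 + (φ x / μ) ^ 2 = (φ x ^ 2 + μ ^ 2) / μ ^ 2 := by
        field_simp
        ring
      rw [h5]
      field_simp
    rw [e2]
    exact e1
  have cΦ' : ContinuousOn (fun x => 2 * χ x / (φ x ^ 2 + μ ^ 2)) (Icc c d) :=
    (continuousOn_const.mul h3).div ((cφ.pow 2).add continuousOn_const) (fun x _ => (hD x).ne')
  have hwle : ∀ x ∈ Icc c d, ‖w x‖ ≤ 2 * χ x / (φ x ^ 2 + μ ^ 2) := by
    intro x hx
    have hχ : 0 < χ x := lt_of_lt_of_le hκ (h4 x hx)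
    simp only [hw]
    rw [norm_mul, nE, mul_one]
    refine (norm_add_le _ _).trans ?_
    rw [norm_mul, Complex.norm_I, one_mul, Complex.norm_real, Complex.norm_real, Real.norm_eq_abs,
      Real.norm_eq_abs]
    have e3 : |G' x| ≤ χ x / (φ x ^ 2 + μ ^ 2) := by
      simp only [hG']
      rw [abs_div, abs_mul, abs_of_pos hχ, abs_of_pos (pow_pos (hD x) 2),
        div_le_div_iff₀ (pow_pos (hD x) 2) (hD x)]
      have : |μ ^ 2 - φ x ^ 2| ≤ φ x ^ 2 + μ ^ 2 := by
        rw [abs_le]
        constructor <;> nlinarith [sq_nonneg (φ x), sq_nonneg μ]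
      have h5 := mul_le_mul_of_nonneg_left this (mul_pos hχ (hD x)).le
      nlinarith
    have e4 : |μ ^ 2 / (φ x ^ 2 + μ ^ 2)| ≤ χ x / (φ x ^ 2 + μ ^ 2) := by
      rw [abs_of_nonneg (by have := hD x; positivity), hμ2]
      apply div_le_div_of_nonneg_right (h4 x hx)
      have := hD x
      rw [hμ2] at this
      exact this.le
    calc |G' x| + |μ ^ 2 / (φ x ^ 2 + μ ^ 2)|
        ≤ χ x / (φ x ^ 2 + μ ^ 2) + χ x / (φ x ^ 2 + μ ^ 2) := add_le_add e3 e4
      _ = 2 * χ x / (φ x ^ 2 + μ ^ 2) := by ring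
  have hwint : ‖∫ x in c..d, w x‖ ≤ Φ d - Φ c := by
    have i3 : IntervalIntegrable (fun x => 2 * χ x / (φ x ^ 2 + μ ^ 2)) volume c d :=
      ContinuousOn.intervalIntegrable (by rw [hu]; exact cΦ')
    rw [← integral_eq_sub_of_hasDerivAt (fun x hx => dΦ x (by rwa [hu] at hx)) i3]
    apply intervalIntegral.norm_integral_le_of_norm_le hcd _ i3
    filter_upwards with x hx
    exact hwle x ⟨hx.1.le, hx.2⟩
  have hΦb : Φ d - Φ c ≤ 2 / μ * Real.pi := by
    simp only [hΦ]
    rw [← mul_sub]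
    apply mul_le_mul_of_nonneg_left _ (by positivity)
    have := Real.arctan_lt_pi_div_two (φ d / μ)
    have := Real.neg_pi_div_two_lt_arctan (φ c / μ)
    linarith
  rw [hint]
  calc ‖-Complex.I * ((G d : ℂ) * Complex.exp (Complex.I * (ψ d : ℂ))
        - (G c : ℂ) * Complex.exp (Complex.I * (ψ c : ℂ))) + ∫ x in c..d, w x‖
      ≤ ‖-Complex.I * ((G d : ℂ) * Complex.exp (Complex.I * (ψ d : ℂ))
        - (G c : ℂ) * Complex.exp (Complex.I * (ψ c : ℂ)))‖ + ‖∫ x in c..d, w x‖ := norm_add_le _ _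
    _ ≤ (1 / (2 * μ) + 1 / (2 * μ)) + 2 / μ * Real.pi := by
        apply add_le_add _ (hwint.trans hΦb)
        rw [norm_mul, norm_neg, Complex.norm_I, one_mul]
        refine (norm_sub_le _ _).trans ?_
        rw [norm_mul, norm_mul, nE, nE, mul_one, mul_one, Complex.norm_real, Complex.norm_real,
          Real.norm_eq_abs, Real.norm_eq_abs]
        exact add_le_add (bG d) (bG c)
    _ = (1 + 2 * Real.pi) / μ := by field_simp; ring
    _ ≤ 8 / μ := by
        apply div_le_div_of_nonneg_right _ hμ0.le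
        have := Real.pi_lt_d2
        norm_num at this ⊢
        linarith

lemma vdc_neg {c d κ : ℝ} (hcd : c ≤ d) (hκ : 0 < κ) (ψ φ χ : ℝ → ℝ)
    (h1 : ∀ x ∈ Icc c d, HasDerivAt ψ (φ x) x) (h2 : ∀ x ∈ Icc c d, HasDerivAt φ (χ x) x)
    (h3 : ContinuousOn χ (Icc c d)) (h4 : ∀ x ∈ Icc c d, χ x ≤ -κ) :
    ‖∫ x in c..d, Complex.exp (Complex.I * (ψ x : ℂ))‖ ≤ 8 / Real.sqrt κ := by
  have h := vdc hcd hκ (fun x => -ψ x) (fun x => -φ x) (fun x => -χ x)
    (fun x hx => (h1 x hx).neg) (fun x hx => (h2 x hx).neg) h3.neg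
    (fun x hx => by have := h4 x hx; linarith)
  have e : (∫ x in c..d, Complex.exp (Complex.I * ((-ψ x : ℝ) : ℂ)))
      = (starRingEnd ℂ) (∫ x in c..d, Complex.exp (Complex.I * (ψ x : ℂ))) := by
    have hc := (Complex.conjCLE : ℂ ≃L[ℝ] ℂ).toContinuousLinearMap.intervalIntegral_comp_comm
      (f := fun x => Complex.exp (Complex.I * (ψ x : ℂ))) (μ := volume) (a := c) (b := d) (by
        apply ContinuousOn.intervalIntegrable
        rw [uIcc_of_le hcd]
        apply Complex.continuous_exp.comp_continuousOn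
        exact continuousOn_const.mul (Complex.continuous_ofReal.comp_continuousOn
          (fun x hx => (h1 x hx).continuousAt.continuousWithinAt)))
    refine Eq.trans ?_ hc
    apply intervalIntegral.integral_congr
    intro x _
    show Complex.exp (Complex.I * ((-ψ x : ℝ) : ℂ)) = (starRingEnd ℂ) (Complex.exp (Complex.I * (ψ x : ℂ)))
    rw [← Complex.exp_conj, map_mul, Complex.conj_I, Complex.conj_ofReal]
    push_cast
    ring_nf
  rw [e, RCLike.norm_conj] at h
  exact h

lemma crude {c d : ℝ} (hcd : c ≤ d) (ψ : ℝ → ℝ) :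
    ‖∫ x in c..d, Complex.exp (Complex.I * (ψ x : ℂ))‖ ≤ d - c := by
  have h := intervalIntegral.norm_integral_le_of_norm_le_const (a := c) (b := d) (C := 1)
    (f := fun x => Complex.exp (Complex.I * (ψ x : ℂ))) (by
      intro x _
      rw [mul_comm]
      exact (Complex.norm_exp_ofReal_mul_I _).le)
  rwa [one_mul, abs_of_nonneg (by linarith)] at h

theorem main : W802.CG.S_OSC := by
  intro ε hε
  obtain ⟨N, hN⟩ := exists_nat_ge (102400 / ε ^ 3)
  refine ⟨N, fun n hn a b => ?_⟩
  have hnN : 102400 / ε ^ 3 ≤ (n : ℝ) := hN.trans (by exact_mod_cast hn)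
  have hn0 : (0:ℝ) < n := lt_of_lt_of_le (by positivity) hnN
  set τ : ℝ := ε / 4 with hτ
  have hτ0 : 0 < τ := by positivity
  set κ : ℝ := n * τ / 25 with hκ
  have hκ0 : 0 < κ := by positivity
  have hκb : 8 / Real.sqrt κ ≤ ε / 4 := by
    have h1 : (32 / ε) ^ 2 ≤ κ := by
      have h2 : 102400 / ε ^ 3 * (ε / 4) / 25 ≤ κ := by
        rw [hκ, hτ]
        apply div_le_div_of_nonneg_right _ (by norm_num)
        exact mul_le_mul_of_nonneg_right hnN (by positivity)
      have h3 : 102400 / ε ^ 3 * (ε / 4) / 25 = (32 / ε) ^ 2 := by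
        field_simp
        norm_num
      linarith
    have h2 : 32 / ε ≤ Real.sqrt κ := Real.le_sqrt_of_sq_le h1
    have h3 : 0 < 32 / ε := by positivity
    rw [div_le_iff₀ (lt_of_lt_of_le h3 h2)]
    calc (8:ℝ) = ε / 4 * (32 / ε) := by field_simp; norm_num
      _ ≤ ε / 4 * Real.sqrt κ := mul_le_mul_of_nonneg_left h2 (by positivity)
  set ψ : ℝ → ℝ := fun x => a * x + b / x - 2 * n * Real.arctan x with hψ
  set φ : ℝ → ℝ := fun x => a - b / x ^ 2 - 2 * n / (1 + x ^ 2) with hφ
  set χ : ℝ → ℝ := fun x => 2 * b / x ^ 3 + 4 * n * x / (1 + x ^ 2) ^ 2 with hχ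
  set h : ℝ → ℝ := fun x => 2 * b + 4 * n * (x ^ 2 / (1 + x ^ 2)) ^ 2 with hh
  have d1 : ∀ x : ℝ, 0 < x → HasDerivAt ψ (φ x) x := by
    intro x hx
    have e1 := (((hasDerivAt_id x).const_mul a).add ((hasDerivAt_inv hx.ne').const_mul b)).sub
      ((Real.hasDerivAt_arctan x).const_mul (2 * (n:ℝ)))
    have e2 : HasDerivAt ψ (a * 1 + b * -(x ^ 2)⁻¹ - 2 * n * (1 / (1 + x ^ 2))) x :=
      e1
    convert e2 using 1
    simp only [hφ]
    ring
  have d2 : ∀ x : ℝ, 0 < x → HasDerivAt φ (χ x) x := by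
    intro x hx
    have e0 : HasDerivAt (fun x : ℝ => x ^ 2) (2 * x) x := by
      simpa using hasDerivAt_pow 2 x
    have e1 := (((e0.inv (by positivity)).const_mul b).const_sub a).sub
      (((e0.const_add 1).inv (by positivity)).const_mul (2 * (n:ℝ)))
    have e2 : HasDerivAt φ (-(b * (-(2 * x) / (x ^ 2) ^ 2)) - 2 * n * (-(2 * x) / (1 + x ^ 2) ^ 2)) x :=
      e1
    convert e2 using 1
    simp only [hχ]
    field_simp
    ring
  have cχ : ContinuousOn χ (Ioi 0) := by
    intro x hx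
    have hx0 : x ≠ 0 := (mem_Ioi.mp hx).ne'
    apply ContinuousAt.continuousWithinAt
    apply ContinuousAt.add
    · exact continuousAt_const.div (continuousAt_id.pow 3) (pow_ne_zero 3 hx0)
    · exact (continuousAt_const.mul continuousAt_id).div
        ((continuousAt_const.add (continuousAt_id.pow 2)).pow 2) (by
          have : 0 < 1 + x ^ 2 := by positivity
          exact (pow_pos this 2).ne')
  have hχh : ∀ x : ℝ, 0 < x → χ x = h x / x ^ 3 := by
    intro x hx
    simp only [hχ, hh]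
    field_simp
  have hgrow : ∀ x y : ℝ, 1 ≤ x → x ≤ y → y ≤ 2 → 8 * n / 25 * (y - x) ≤ h y - h x := by
    intro x y hx hxy hy
    simp only [hh]
    set r := x ^ 2 / (1 + x ^ 2) with hr
    set s := y ^ 2 / (1 + y ^ 2) with hs
    have r1 : 1 / 2 ≤ r := by
      rw [hr, div_le_div_iff₀ (by norm_num) (by positivity)]
      nlinarith
    have s1 : 1 / 2 ≤ s := by
      rw [hs, div_le_div_iff₀ (by norm_num) (by positivity)]
      nlinarith
    have rs : 2 / 25 * (y - x) ≤ s - r := by
      have e : s - r = (y - x) * (y + x) / ((1 + x ^ 2) * (1 + y ^ 2)) := by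
        rw [hs, hr]
        field_simp
        ring
      rw [e, le_div_iff₀ (by positivity)]
      have e1 : (1 + x ^ 2) * (1 + y ^ 2) ≤ 25 := by
        have : 1 + x ^ 2 ≤ 5 := by nlinarith
        have : 1 + y ^ 2 ≤ 5 := by nlinarith
        nlinarith [sq_nonneg x, sq_nonneg y]
      have e2 : 0 ≤ y - x := by linarith
      calc 2 / 25 * (y - x) * ((1 + x ^ 2) * (1 + y ^ 2)) ≤ 2 / 25 * (y - x) * 25 :=
            mul_le_mul_of_nonneg_left e1 (by positivity)
        _ = (y - x) * 2 := by ring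
        _ ≤ (y - x) * (y + x) := mul_le_mul_of_nonneg_left (by linarith) e2
    have e3 : 2 / 25 * (y - x) ≤ s ^ 2 - r ^ 2 := by
      have : 0 ≤ 2 / 25 * (y - x) := by
        have : 0 ≤ y - x := by linarith
        positivity
      nlinarith
    nlinarith
  -- the sign change of `h`
  obtain ⟨z, hz1, hz2, hzl, hzr⟩ : ∃ z : ℝ, 1 ≤ z ∧ z ≤ 2 ∧ (1 < z → h z ≤ 0) ∧ (z < 2 → 0 ≤ h z) := by
    by_cases hh1 : 0 ≤ h 1
    · exact ⟨1, le_rfl, by norm_num, fun h => absurd h (lt_irrefl _), fun _ => hh1⟩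
    by_cases hh2 : h 2 ≤ 0
    · exact ⟨2, by norm_num, le_rfl, fun _ => hh2, fun h => absurd h (lt_irrefl _)⟩
    push_neg at hh1 hh2
    have ch : ContinuousOn h (Icc 1 2) := by
      intro x hx
      apply ContinuousAt.continuousWithinAt
      exact continuousAt_const.add (continuousAt_const.mul (((continuousAt_id.pow 2).div
        (continuousAt_const.add (continuousAt_id.pow 2)) (by
          have : 0 < 1 + x ^ 2 := by positivity
          exact this.ne')).pow 2))
    obtain ⟨z, hz, hz0⟩ := intermediate_value_Icc (by norm_num : (1:ℝ) ≤ 2) ch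
      (show (0:ℝ) ∈ Icc (h 1) (h 2) from ⟨hh1.le, hh2.le⟩)
    exact ⟨z, hz.1, hz.2, fun _ => hz0.le, fun _ => hz0.ge⟩
  have hcont : ∀ c d : ℝ, 1 ≤ c → 1 ≤ d → IntervalIntegrable
      (fun x => Complex.exp (Complex.I * (ψ x : ℂ))) volume c d := by
    intro c d hc hd
    apply ContinuousOn.intervalIntegrable
    intro x hx
    have hx0 : 0 < x := by
      have := (mem_uIcc.mp hx)
      rcases this with h | h <;> linarith [h.1]
    apply ContinuousAt.continuousWithinAt
    exact Complex.continuous_exp.continuousAt.comp (continuousAt_const.mul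
      (Complex.continuous_ofReal.continuousAt.comp (d1 x hx0).continuousAt))
  have hR : ‖∫ x in z..2, Complex.exp (Complex.I * (ψ x : ℂ))‖ ≤ τ + ε / 4 := by
    by_cases hzt : z + τ ≤ 2
    · have hz0 : 0 ≤ h z := hzr (by linarith)
      rw [← intervalIntegral.integral_add_adjacent_intervals (hcont z (z + τ) hz1 (by linarith))
        (hcont (z + τ) 2 (by linarith) (by norm_num))]
      refine (norm_add_le _ _).trans (add_le_add ?_ ?_)
      · have := crude (c := z) (d := z + τ) (by linarith) ψ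
        linarith
      · refine (vdc hzt hκ0 ψ φ χ (fun x hx => d1 x (by linarith [hx.1]))
          (fun x hx => d2 x (by linarith [hx.1]))
          (cχ.mono fun x hx => mem_Ioi.mpr (by linarith [hx.1])) ?_).trans hκb
        intro x hx
        have hx0 : 0 < x := by linarith [hx.1]
        rw [hχh x hx0, le_div_iff₀ (by positivity)]
        have e1 := hgrow z x hz1 (by linarith [hx.1]) hx.2
        have e2 : 8 * (n:ℝ) / 25 * τ ≤ 8 * n / 25 * (x - z) :=
          mul_le_mul_of_nonneg_left (by linarith [hx.1]) (by positivity)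
        have e3 : x ^ 3 ≤ 8 := by
          have := pow_le_pow_left₀ hx0.le hx.2 3
          norm_num at this
          exact this
        calc κ * x ^ 3 ≤ κ * 8 := mul_le_mul_of_nonneg_left e3 hκ0.le
          _ = 8 * n / 25 * τ := by rw [hκ]; ring
          _ ≤ h x := by linarith
    · have := crude (c := z) (d := 2) hz2 ψ
      linarith
  have hL : ‖∫ x in (1:ℝ)..z, Complex.exp (Complex.I * (ψ x : ℂ))‖ ≤ τ + ε / 4 := by
    by_cases hzt : 1 ≤ z - τ
    · have hz0 : h z ≤ 0 := hzl (by linarith)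
      rw [← intervalIntegral.integral_add_adjacent_intervals (hcont 1 (z - τ) le_rfl hzt)
        (hcont (z - τ) z hzt hz1), add_comm]
      refine (norm_add_le _ _).trans (add_le_add ?_ ?_)
      · have := crude (c := z - τ) (d := z) (by linarith) ψ
        linarith
      · refine (vdc_neg hzt hκ0 ψ φ χ (fun x hx => d1 x (by linarith [hx.1]))
          (fun x hx => d2 x (by linarith [hx.1]))
          (cχ.mono fun x hx => mem_Ioi.mpr (by linarith [hx.1])) ?_).trans hκb
        intro x hx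
        have hx0 : 0 < x := by linarith [hx.1]
        rw [hχh x hx0, div_le_iff₀ (by positivity)]
        have e1 := hgrow x z hx.1 (by linarith [hx.2]) hz2
        have e2 : 8 * (n:ℝ) / 25 * τ ≤ 8 * n / 25 * (z - x) :=
          mul_le_mul_of_nonneg_left (by linarith [hx.2]) (by positivity)
        have e3 : x ^ 3 ≤ 8 := by
          have := pow_le_pow_left₀ hx0.le (by linarith [hx.2] : x ≤ 2) 3
          norm_num at this
          exact this
        have e4 : κ * x ^ 3 ≤ κ * 8 := mul_le_mul_of_nonneg_left e3 hκ0.le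
        have e5 : κ * 8 = 8 * n / 25 * τ := by rw [hκ]; ring
        linarith
    · have := crude (c := 1) (d := z) hz1 ψ
      linarith
  have hsum := intervalIntegral.integral_add_adjacent_intervals (hcont 1 z le_rfl hz1)
    (hcont z 2 hz1 (by norm_num))
  show ‖∫ x in (1 : ℝ)..2, Complex.exp (Complex.I * (ψ x : ℂ))‖ ≤ ε
  rw [← hsum]
  refine (norm_add_le _ _).trans ?_
  linarith

end W628.CG
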